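import Mathlib
import Pool.Agent.Lib_helper97.PENT.Defs

/-! Block T3 (project PENT): the size of the `n_j`. -/

set_option autoImplicit false

namespace Pool.Agent.PENT

open Finset

theorem t3_bf_pos {a b c : ℤ} {u v : ℤ × ℤ} (ha : 0 < a) (hb : 0 ≤ b) (hc : 0 ≤ c)
    (h1 : 0 < u.1) (h2 : 0 < u.2) (h3 : 0 < v.1) (h4 : 0 < v.2) : 0 < bf a b c u v := by
  unfold bf
  have e1 : 0 < a * u.1 * v.1 := by positivity
  have e2 : 0 ≤ b * (u.1 * v.2 + u.2 * v.1) := by positivity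
  have e3 : 0 ≤ c * u.2 * v.2 := by positivity
  linarith

theorem t3_bf_le {a b c K : ℤ} {u v : ℤ × ℤ} (ha : a ≤ K) (hb : b ≤ K) (hc : c ≤ K)
    (h1 : 0 < u.1) (h2 : 0 < u.2) (h3 : 0 < v.1) (h4 : 0 < v.2) :
    bf a b c u v ≤ K * (nm u * nm v) := by
  unfold bf nm
  have e1 : a * u.1 * v.1 ≤ K * u.1 * v.1 := by
    have := mul_pos h1 h3
    nlinarith
  have e2 : b * (u.1 * v.2 + u.2 * v.1) ≤ K * (u.1 * v.2 + u.2 * v.1) :=
    mul_le_mul_of_nonneg_right hb (by positivity)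
  have e3 : c * u.2 * v.2 ≤ K * u.2 * v.2 := by
    have := mul_pos h2 h4
    nlinarith
  nlinarith

/-- block T3: the size of the `n_j` -/
theorem n_bound_pr {p : Par} {X : ℕ} (hX : 1 ≤ X) {κ : ℝ} (hp : p.Ok κ) {τ : Pol 5} (h : p.TS X τ)
    (j : Fin 5) : 1 ≤ τ.n j ∧ (τ.n j : ℝ) ≤ 5 / p.c1 * X := by
  have hc : 0 < p.c1 := hp.c10
  have ha1 := h.ha1
  have ha2 := h.ha2
  have hb1 := h.hb1
  have hb2 := h.hb2
  have hdisc := h.good.disc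
  have hX' : (1 : ℤ) ≤ (X : ℤ) := by exact_mod_cast hX
  have ha0 : 0 < τ.a := by linarith
  have hb0 : 0 < τ.b := by linarith
  -- `0 < c ≤ 5 X`
  have hc0 : 0 < τ.c := by
    have : 0 < τ.a * τ.c := by nlinarith
    exact (mul_pos_iff_of_pos_left ha0).1 this
  have hc5 : τ.c ≤ 5 * X := by
    by_contra hcon
    have h1 : 5 * (X : ℤ) + 1 ≤ τ.c := by omega
    have h2 : (X + 1 : ℤ) * (5 * X + 1) ≤ τ.a * τ.c :=
      mul_le_mul (by omega) h1 (by positivity) ha0.le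
    nlinarith
  have hu1 := h.gp.pos1 j
  have hu2 := h.gp.pos2 j
  have hv1 := h.gp.pos1 (j + 1)
  have hv2 := h.gp.pos2 (j + 1)
  have hpos : 0 < bf τ.a τ.b τ.c (τ.u j) (τ.u (j + 1)) :=
    t3_bf_pos ha0 hb0.le hc0.le hu1 hu2 hv1 hv2
  have hle : bf τ.a τ.b τ.c (τ.u j) (τ.u (j + 1)) ≤ 5 * X * (nm (τ.u j) * nm (τ.u (j + 1))) :=
    t3_bf_le (by linarith) (by linarith) hc5 hu1 hu2 hv1 hv2
  have hne : j ≠ j + 1 := (by decide : ∀ i : Fin 5, i ≠ i + 1) j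
  have hsep : p.c1 * ((nm (τ.u j) : ℝ) * (nm (τ.u (j + 1)) : ℝ)) ≤ |(τ.d j : ℝ)| := by
    refine (h.gp.sep j (j + 1) hne).trans ?_
    change (p.sg j (j + 1) : ℝ) * (τ.d j : ℝ) ≤ |(τ.d j : ℝ)|
    rcases hp.sg1 j (j + 1) with hs | hs
    · rw [hs]; push_cast; rw [one_mul]; exact le_abs_self _
    · rw [hs]; push_cast; rw [neg_one_mul]; exact neg_le_abs _
  have hbf := h.good.bf_eq j
  -- natAbs
  have hn : (bf τ.a τ.b τ.c (τ.u j) (τ.u (j + 1))) = (τ.n j : ℤ) * |τ.d j| := by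
    rw [Pol.n, Int.natCast_natAbs, ← abs_mul, ← hbf, abs_of_pos hpos]
  have hn1 : 1 ≤ τ.n j := by
    rcases Nat.eq_zero_or_pos (τ.n j) with h0 | h0
    · rw [h0] at hn
      simp at hn
      omega
    · exact h0
  refine ⟨hn1, ?_⟩
  have hnm1 : (0 : ℝ) < (nm (τ.u j) : ℝ) := by
    have : 0 < nm (τ.u j) := by unfold nm; omega
    exact_mod_cast this
  have hnm2 : (0 : ℝ) < (nm (τ.u (j + 1)) : ℝ) := by
    have : 0 < nm (τ.u (j + 1)) := by unfold nm; omega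
    exact_mod_cast this
  have hR : ((τ.n j : ℝ)) * |(τ.d j : ℝ)| ≤
      5 * X * ((nm (τ.u j) : ℝ) * (nm (τ.u (j + 1)) : ℝ)) := by
    rw [hn] at hle
    exact_mod_cast hle
  have hsep' : p.c1 * ((nm (τ.u j) : ℝ) * (nm (τ.u (j + 1)) : ℝ)) ≤ |(τ.d j : ℝ)| := hsep
  have hn0 : (0 : ℝ) ≤ (τ.n j : ℝ) := Nat.cast_nonneg _
  have h3 : (τ.n j : ℝ) * (p.c1 * ((nm (τ.u j) : ℝ) * (nm (τ.u (j + 1)) : ℝ))) ≤
      5 * X * ((nm (τ.u j) : ℝ) * (nm (τ.u (j + 1)) : ℝ)) :=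
    (mul_le_mul_of_nonneg_left hsep' hn0).trans hR
  have hprod : 0 < (nm (τ.u j) : ℝ) * (nm (τ.u (j + 1)) : ℝ) := mul_pos hnm1 hnm2
  have h4 : (τ.n j : ℝ) * p.c1 ≤ 5 * X := by
    refine le_of_mul_le_mul_right ?_ hprod
    calc (τ.n j : ℝ) * p.c1 * ((nm (τ.u j) : ℝ) * (nm (τ.u (j + 1)) : ℝ)) =
        (τ.n j : ℝ) * (p.c1 * ((nm (τ.u j) : ℝ) * (nm (τ.u (j + 1)) : ℝ))) := by ring
      _ ≤ _ := h3
  rw [div_mul_eq_mul_div, le_div_iff₀ hc]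
  exact h4

end Pool.Agent.PENT
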